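import Pool.Agent.Helper40.AC.Stmts

/-! AC packet P29: from an isotopy to tangential data. -/

open scoped ContDiff Topology Matrix Kronecker
open MeasureTheory

namespace Pool.Agent.Helper81.AC

open Pool.Agent.Helper40.AC

noncomputable section

/-! ### The projector `pL` -/

theorem unit_aT (h7 : S_ROOT) {c₁ s₁ c₂ s₂ : ℝ} (h1 : c₁ ^ 2 + s₁ ^ 2 = 1)
    (h2 : c₂ ^ 2 + s₂ ^ 2 = 1) : ∑ i, aT c₁ s₁ c₂ s₂ i ^ 2 = 1 := by
  obtain ⟨-, -, hN, hb⟩ := h7
  have h3 := hb c₁ s₁ c₂ s₂ (rootF (gg c₁ s₁ c₂ s₂)) h1 h2 (rootF_spec _)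
  have h4 := hN c₁ s₁ c₂ s₂ (rootF (gg c₁ s₁ c₂ s₂))
  unfold aT
  simp only [div_pow]
  rw [← Finset.sum_div, h3, div_self (by positivity)]

theorem pL_facts (h6 : S_QUAT) (h7 : S_ROOT) (x : Ang) :
    pL x * pL x = pL x ∧ (pL x)ᵀ = pL x ∧ (pL x).trace = 2 := by
  have h := h6 (aT (Real.cos (x 0)) (Real.sin (x 0)) (Real.cos (x 1)) (Real.sin (x 1)))
    (aT (Real.cos (x 2)) (Real.sin (x 2)) (Real.cos (x 3)) (Real.sin (x 3)))
    (unit_aT h7 (Real.cos_sq_add_sin_sq _) (Real.cos_sq_add_sin_sq _))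
    (unit_aT h7 (Real.cos_sq_add_sin_sq _) (Real.cos_sq_add_sin_sq _))
  exact ⟨h.2.2.2.2.2.1, h.2.2.2.2.2.2.1, h.2.2.2.2.2.2.2.1⟩

/-! ### The matrix `ε` -/

/-- the block matrix -/
def ep (x : Ang) : Matrix (Fin 8) (Fin 8) ℝ :=
  Matrix.reindex (finSumFinEquiv (m := 4) (n := 4)) (finSumFinEquiv (m := 4) (n := 4))
    (Matrix.fromBlocks 1 0 0 (1 - pL x))

theorem ep_facts (h6 : S_QUAT) (h7 : S_ROOT) (x : Ang) :
    (ep x)ᵀ = ep x ∧ ep x * ep x = ep x ∧ (ep x).trace = 6 := by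
  obtain ⟨h1, h2, h3⟩ := pL_facts h6 h7 x
  have h4 : (1 - pL x) * (1 - pL x) = 1 - pL x := by
    have h5 : (1 - pL x) * (1 - pL x) = 1 - pL x - (pL x - pL x * pL x) := by noncomm_ring
    rw [h5, h1, sub_self, sub_zero]
  refine ⟨?_, ?_, ?_⟩
  · unfold ep
    rw [Matrix.transpose_reindex, Matrix.fromBlocks_transpose]
    simp [h2]
  · unfold ep
    rw [Matrix.reindex_apply, Matrix.submatrix_mul_equiv, Matrix.fromBlocks_multiply]
    simp [h4]
  · unfold ep
    rw [Matrix.trace]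
    have e : ∑ i : Fin 8, Matrix.diag (Matrix.reindex (finSumFinEquiv (m := 4) (n := 4))
        (finSumFinEquiv (m := 4) (n := 4)) (Matrix.fromBlocks 1 0 0 (1 - pL x))) i =
        ∑ i : Fin 4 ⊕ Fin 4, Matrix.diag (Matrix.fromBlocks 1 0 0 (1 - pL x)) i := by
      rw [← (finSumFinEquiv (m := 4) (n := 4)).sum_comp]
      refine Finset.sum_congr rfl fun i _ => ?_
      simp [Matrix.diag]
    rw [e, Fintype.sum_sum_type]
    have e2 : ∑ i : Fin 4, Matrix.diag (Matrix.fromBlocks (1 : Matrix (Fin 4) (Fin 4) ℝ)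
        (0 : Matrix (Fin 4) (Fin 4) ℝ) (0 : Matrix (Fin 4) (Fin 4) ℝ) (1 - pL x)) (Sum.inr i) =
        Matrix.trace (1 - pL x) := rfl
    have e3 : ∑ i : Fin 4, Matrix.diag (Matrix.fromBlocks (1 : Matrix (Fin 4) (Fin 4) ℝ)
        (0 : Matrix (Fin 4) (Fin 4) ℝ) (0 : Matrix (Fin 4) (Fin 4) ℝ) (1 - pL x)) (Sum.inl i) =
        Matrix.trace (1 : Matrix (Fin 4) (Fin 4) ℝ) := rfl
    rw [e2, e3, Matrix.trace_sub, h3, Matrix.trace_one]
    norm_num

theorem uL_ep (x : Ang) (u : Fin 8 → ℝ) : uL (ep x *ᵥ u) = uL u := by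
  funext j
  have hj : (⟨j.1, by omega⟩ : Fin 8) = finSumFinEquiv (m := 4) (n := 4) (Sum.inl j) := rfl
  unfold uL
  rw [hj]
  show ∑ k, ep x (finSumFinEquiv (m := 4) (n := 4) (Sum.inl j)) k * u k = _
  rw [← (finSumFinEquiv (m := 4) (n := 4)).sum_comp, Fintype.sum_sum_type]
  unfold ep
  simp [Matrix.one_apply]

theorem uR_ep (x : Ang) (u : Fin 8 → ℝ) : uR (ep x *ᵥ u) = (1 - pL x) *ᵥ uR u := by
  funext j
  have hj : ∀ j : Fin 4, (⟨j.1 + 4, by omega⟩ : Fin 8) =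
      finSumFinEquiv (m := 4) (n := 4) (Sum.inr j) := by
    intro j
    apply Fin.ext
    show j.1 + 4 = 4 + j.1
    omega
  unfold uR
  rw [hj]
  show ∑ k, ep x (finSumFinEquiv (m := 4) (n := 4) (Sum.inr j)) k * u k =
    ∑ k, (1 - pL x) j k * u ⟨k.1 + 4, by omega⟩
  rw [← (finSumFinEquiv (m := 4) (n := 4)).sum_comp, Fintype.sum_sum_type]
  unfold ep
  simp only [Matrix.reindex_apply, Matrix.submatrix_apply, Equiv.symm_apply_apply,
    Matrix.fromBlocks_apply₂₁, Matrix.fromBlocks_apply₂₂, Matrix.zero_apply, zero_mul,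
    Finset.sum_const_zero, zero_add, hj]

theorem smPer_const (c : ℝ) : SmPer fun _ => c := ⟨contDiff_const, fun _ _ => rfl⟩

theorem ep_smPer (h : ∀ i j, SmPer (fun x => pL x i j)) (i j : Fin 8) :
    SmPer (fun x => ep x i j) := by
  unfold ep
  simp only [Matrix.reindex_apply, Matrix.submatrix_apply]
  rcases (finSumFinEquiv (m := 4) (n := 4)).symm i with a | a <;>
    rcases (finSumFinEquiv (m := 4) (n := 4)).symm j with b | b
  · exact smPer_const _
  · exact smPer_const _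
  · exact smPer_const _
  · refine ⟨?_, fun x k => ?_⟩
    · simp only [Matrix.fromBlocks_apply₂₂, Matrix.sub_apply]
      exact contDiff_const.sub (h a b).1
    · simp only [Matrix.fromBlocks_apply₂₂, Matrix.sub_apply]
      have h5 := (h a b).2 x k
      dsimp only at h5
      rw [h5]

/-- vectors with the two parts -/
theorem ext8 {u v : Fin 8 → ℝ} (h1 : uL u = uL v) (h2 : uR u = uR v) : u = v := by
  funext i
  by_cases hi : i.1 < 4
  · exact congrFun h1 ⟨i.1, hi⟩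
  · have h3 := congrFun h2 ⟨i.1 - 4, by omega⟩
    unfold uR at h3
    have h4 : (⟨(⟨i.1 - 4, by omega⟩ : Fin 4).1 + 4, by omega⟩ : Fin 8) = i := by
      apply Fin.ext
      show i.1 - 4 + 4 = i.1
      omega
    rw [h4] at h3
    exact h3

theorem contDiff_uL : ContDiff ℝ ∞ uL := contDiff_pi.2 fun _ => contDiff_apply ℝ ℝ _

theorem contDiff_uR : ContDiff ℝ ∞ uR := contDiff_pi.2 fun _ => contDiff_apply ℝ ℝ _

theorem uL_smul (s : ℝ) (u : Fin 8 → ℝ) : uL (s • u) = s • uL u := rfl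

theorem uR_smul (s : ℝ) (u : Fin 8 → ℝ) : uR (s • u) = s • uR u := rfl

theorem uL_zero : uL 0 = 0 := rfl

theorem uR_zero : uR 0 = 0 := rfl

theorem uL_sub (u v : Fin 8 → ℝ) : uL (u - v) = uL u - uL v := rfl

theorem uR_sub (u v : Fin 8 → ℝ) : uR (u - v) = uR u - uR v := rfl

/-- derivatives along lines -/
theorem deriv_line {n : ℕ} {ι : Type} [Fintype ι] {f : (Fin n → ℝ) → (ι → ℝ)}
    (hf : ContDiff ℝ ∞ f) (u : Fin n → ℝ) :
    HasDerivAt (fun s : ℝ => f (s • u)) (fderiv ℝ f 0 u) 0 := by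
  have h1 : HasDerivAt (fun s : ℝ => s • u) ((1 : ℝ) • u) 0 := (hasDerivAt_id (0 : ℝ)).smul_const u
  have h2 : HasFDerivAt f (fderiv ℝ f 0) ((0 : ℝ) • u) := by
    rw [zero_smul]
    exact (hf.differentiable (by simp) 0).hasFDerivAt
  have h3 := h2.comp_hasDerivAt (0 : ℝ) h1
  rw [one_smul] at h3
  exact h3

/-! ### The inclusion of the coordinates -/

/-- the coordinates `w_0, .., w_3` -/
def io (j : Fin 4) : Idx := Sum.inr (Sum.inr j.castSucc)

/-- the inclusion matrix -/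
def JJm (S : Type) [CommRing S] : Matrix Idx (Fin 4) S := fun i j => if i = io j then 1 else 0

theorem io_inj {i j : Fin 4} (h : io i = io j) : i = j := by
  unfold io at h
  have := Sum.inr.inj (Sum.inr.inj h)
  exact Fin.castSucc_injective _ this

theorem JtJ (S : Type) [CommRing S] : (JJm S)ᵀ * JJm S = 1 := by
  ext i j
  rw [Matrix.mul_apply]
  simp only [Matrix.transpose_apply, JJm, ite_mul, one_mul, zero_mul]
  rw [Finset.sum_ite_eq' Finset.univ (io i)]
  simp only [Finset.mem_univ, if_true, Matrix.one_apply]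
  by_cases h : i = j
  · rw [if_pos h, h, if_pos rfl]
  · rw [if_neg h, if_neg fun h2 => h (io_inj h2)]

theorem JtV (v : Idx → ℝ) : (JJm ℝ)ᵀ *ᵥ v = fun j => v (io j) := by
  funext j
  show ∑ i, (JJm ℝ) i j * v i = v (io j)
  simp only [JJm, ite_mul, one_mul, zero_mul]
  rw [Finset.sum_ite_eq' Finset.univ (io j)]
  simp

/-- the projector at the time `0` -/
def q0 (x : Ang) : Matrix Idx Idx ℝ := JJm ℝ * pL x * (JJm ℝ)ᵀ

theorem q0_smPer (h : ∀ i j, SmPer (fun x => pL x i j)) (i j : Idx) :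
    SmPer (fun x => q0 x i j) := by
  unfold q0
  simp only [Matrix.mul_apply, Matrix.transpose_apply]
  refine ⟨?_, fun x k => ?_⟩
  · exact ContDiff.sum fun a _ => (ContDiff.sum fun b _ => contDiff_const.mul (h b a).1).mul
      contDiff_const
  · simp only [(h _ _).2 x k]

theorem mB_congr {n : Type} {p q : Ang → Matrix n n ℝ} (h : ∀ i j, SmPer (fun x => p x i j))
    (h' : ∀ i j, SmPer (fun x => q x i j)) (e : ∀ x, p x = q x) : mB p h = mB q h' := by
  ext i j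
  refine BB.ext fun x => ?_
  rw [mB_fn, mB_fn, e]

theorem mB_mul {n : Type} [Fintype n] {p : Ang → Matrix n n ℝ}
    (h : ∀ i j, SmPer (fun x => p x i j)) (e : ∀ x, p x * p x = p x) :
    mB p h * mB p h = mB p h := by
  ext i j
  refine BB.ext fun x => ?_
  have h1 : (mB p h * mB p h) i j = ∑ k, mB p h i k * mB p h k j := rfl
  have h2 : evx x ((mB p h * mB p h) i j) = ∑ k, evx x (mB p h i k * mB p h k j) := by
    rw [h1, map_sum]
  have h3 : ((mB p h * mB p h) i j).fn x = evx x ((mB p h * mB p h) i j) := rfl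
  rw [h3, h2]
  simp only [evx_apply, BB.fn_mul, mB_fn]
  conv_rhs => rw [← e x]
  rw [Matrix.mul_apply]
  push_cast
  rfl

theorem JJm_map {S T : Type} [CommRing S] [CommRing T] (f : S →+* T) :
    (JJm S).map f = JJm T := by
  ext i j
  simp only [Matrix.map_apply, JJm]
  split
  · exact map_one f
  · exact map_zero f

/-- the projector at the time `0` over the ring -/
theorem mB_q0 (h : ∀ i j, SmPer (fun x => pL x i j)) :
    mB q0 (q0_smPer h) = JJm BB * mB pL h * (JJm BB)ᵀ := by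
  ext i j
  refine BB.ext fun x => ?_
  have e1 : (JJm BB * mB pL h * (JJm BB)ᵀ).map (evx x) =
      JJm ℂ * (mB pL h).map (evx x) * (JJm ℂ)ᵀ := by
    rw [Matrix.map_mul, Matrix.map_mul, Matrix.transpose_map, JJm_map]
  have e2 : (mB pL h).map (evx x) = (pL x).map Complex.ofRealHom := rfl
  have e3 : (q0 x).map Complex.ofRealHom =
      JJm ℂ * (pL x).map Complex.ofRealHom * (JJm ℂ)ᵀ := by
    unfold q0
    rw [Matrix.map_mul, Matrix.map_mul, Matrix.transpose_map, JJm_map]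
  have e4 : ((JJm BB * mB pL h * (JJm BB)ᵀ) i j).fn x =
      ((JJm BB * mB pL h * (JJm BB)ᵀ).map (evx x)) i j := rfl
  rw [e4, e1, e2, ← e3]
  rfl

theorem Phi_q0 (h4 : S_EQUIV) (h6 : S_QUAT) (h7 : S_ROOT)
    (h : ∀ i j, SmPer (fun x => pL x i j)) :
    Phi (mB q0 (q0_smPer h)) = Phi (mB pL h) := by
  have hP : mB pL h * mB pL h = mB pL h := mB_mul h fun x => (pL_facts h6 h7 x).1
  have hJ := JtJ BB
  refine h4 _ _ (JJm BB * mB pL h) (mB pL h * (JJm BB)ᵀ) ?_ hP ?_ ?_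
  · rw [mB_q0]
    calc JJm BB * mB pL h * (JJm BB)ᵀ * (JJm BB * mB pL h * (JJm BB)ᵀ) =
        JJm BB * (mB pL h * ((JJm BB)ᵀ * JJm BB) * mB pL h) * (JJm BB)ᵀ := by
          simp only [Matrix.mul_assoc]
      _ = _ := by rw [hJ, Matrix.mul_one, hP]
  · rw [mB_q0]
    calc JJm BB * mB pL h * (mB pL h * (JJm BB)ᵀ) =
        JJm BB * (mB pL h * mB pL h) * (JJm BB)ᵀ := by simp only [Matrix.mul_assoc]
      _ = _ := by rw [hP]
  · calc mB pL h * (JJm BB)ᵀ * (JJm BB * mB pL h) =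
        mB pL h * ((JJm BB)ᵀ * JJm BB) * mB pL h := by simp only [Matrix.mul_assoc]
      _ = _ := by rw [hJ, Matrix.mul_one, hP]

theorem q0_facts (h6 : S_QUAT) (h7 : S_ROOT) (x : Ang) :
    (q0 x)ᵀ = q0 x ∧ q0 x * q0 x = q0 x ∧ (q0 x).trace = 2 := by
  obtain ⟨h1, h2, h3⟩ := pL_facts h6 h7 x
  have hJ := JtJ ℝ
  refine ⟨?_, ?_, ?_⟩
  · unfold q0
    rw [Matrix.transpose_mul, Matrix.transpose_mul, Matrix.transpose_transpose, h2,
      Matrix.mul_assoc]
  · unfold q0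
    calc JJm ℝ * pL x * (JJm ℝ)ᵀ * (JJm ℝ * pL x * (JJm ℝ)ᵀ) =
        JJm ℝ * (pL x * ((JJm ℝ)ᵀ * JJm ℝ) * pL x) * (JJm ℝ)ᵀ := by
          simp only [Matrix.mul_assoc]
      _ = _ := by rw [hJ, Matrix.mul_one, h1]
  · unfold q0
    rw [Matrix.trace_mul_comm, ← Matrix.mul_assoc, hJ, Matrix.one_mul, h3]

theorem q0_mulVec (x : Ang) (v : Idx → ℝ) (h : pL x *ᵥ (fun j => v (io j)) = 0) :
    q0 x *ᵥ v = 0 := by
  unfold q0
  rw [← Matrix.mulVec_mulVec, JtV, ← Matrix.mulVec_mulVec, h, Matrix.mulVec_zero]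

theorem q0_norC (x : Ang) (j : Fin 4) : q0 x *ᵥ norC (kk x) j = 0 := by
  apply q0_mulVec
  have e : (fun i => norC (kk x) j (io i)) = 0 := rfl
  rw [e, Matrix.mulVec_zero]

theorem q0_norS (x : Ang) : q0 x *ᵥ norS (kk x) = 0 := by
  apply q0_mulVec
  have e : (fun i => norS (kk x) (io i)) = 0 := by
    funext i
    show (if (i.castSucc : Fin 5) = 4 then (1 : ℝ) else 0) = 0
    rw [if_neg]
    intro h
    have := congrArg Fin.val h
    have h2 := i.2
    simp at this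
    omega
  rw [e, Matrix.mulVec_zero]

theorem geo1_ok (h1 : S_MU) (h2 : S_FAM) (h3 : S_HOM) (h4 : S_EQUIV) (_h5 : S_BLOCK)
    (h6 : S_QUAT) (h7 : S_ROOT) : S_GEO1 := by
  intro H hH hd h
  obtain ⟨hHs, hHV, hH0, hHi⟩ := hH
  obtain ⟨μ, μs, μM, μ0, μp, μr, μd⟩ := h1
  have hηs : ContDiff ℝ ∞ Real.smoothTransition := Real.smoothTransition.contDiff
  have hηI : ∀ t, Real.smoothTransition t ∈ Set.Icc (0:ℝ) 1 := fun t =>
    ⟨Real.smoothTransition.nonneg t, Real.smoothTransition.le_one t⟩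
  -- the parametrisation of `M`
  have hm : ContDiff ℝ ∞ (fun q : Ang × (Fin 8 → ℝ) => μ (q.1 + uL q.2) (uR q.2)) := by
    have e : ContDiff ℝ ∞ (fun q : Ang × (Fin 8 → ℝ) => (q.1 + uL q.2, uR q.2)) :=
      (contDiff_fst.add (contDiff_uL.comp contDiff_snd)).prodMk (contDiff_uR.comp contDiff_snd)
    exact μs.comp e
  obtain ⟨Ψ, hΨ⟩ : ∃ Ψ : ℝ → Ang → (Fin 8 → ℝ) → (Idx → ℝ), ∀ t x u,
      Ψ t x u = H (μ (x + uL u) (uR u)) (Real.smoothTransition t) := ⟨_, fun _ _ _ => rfl⟩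
  have hΨs : ContDiff ℝ ∞ (fun q : ℝ × Ang × (Fin 8 → ℝ) => Ψ q.1 q.2.1 q.2.2) := by
    have e : ContDiff ℝ ∞ (fun q : ℝ × Ang × (Fin 8 → ℝ) =>
        (μ (q.2.1 + uL q.2.2) (uR q.2.2), Real.smoothTransition q.1)) :=
      (hm.comp contDiff_snd).prodMk (hηs.comp contDiff_fst)
    have e2 := hHs.comp_contDiff e (fun q => ⟨μM _ _, hηI _⟩)
    have e3 : (fun q : ℝ × Ang × (Fin 8 → ℝ) => Ψ q.1 q.2.1 q.2.2) = (fun p : (Idx → ℝ) × ℝ =>
        H p.1 p.2) ∘ (fun q : ℝ × Ang × (Fin 8 → ℝ) =>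
        (μ (q.2.1 + uL q.2.2) (uR q.2.2), Real.smoothTransition q.1)) := funext fun q => hΨ _ _ _
    rw [e3]
    exact e2
  have hΨt : ∀ t x, ContDiff ℝ ∞ (Ψ t x) := fun t x =>
    hΨs.comp (contDiff_const.prodMk (contDiff_const.prodMk contDiff_id))
  have hΨp : ∀ t (x : Ang) (k : Fin 4) u, Ψ t (x + Pi.single k (2 * Real.pi)) u = Ψ t x u := by
    intro t x k u
    rw [hΨ, hΨ, add_right_comm, μp]
  have hΨV : ∀ t x u, Ψ t x u ∈ VV := by
    intro t x u
    rw [hΨ]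
    exact hHV _ (μM _ _) _ (hηI _)
  have hred : ∀ t x u, fderiv ℝ (Ψ t x) 0 (ep x *ᵥ u) = fderiv ℝ (Ψ t x) 0 u := by
    intro t x u
    have hw1 : uL (u - ep x *ᵥ u) = 0 := by rw [uL_sub, uL_ep, sub_self]
    have hw2 : uR (u - ep x *ᵥ u) = pL x *ᵥ uR u := by
      rw [uR_sub, uR_ep, Matrix.sub_mulVec, Matrix.one_mulVec, sub_sub_cancel]
    have hc : ∀ s : ℝ, Ψ t x (s • (u - ep x *ᵥ u)) = H (μ x 0) (Real.smoothTransition t) := by
      intro s
      rw [hΨ, uL_smul, uR_smul, hw1, hw2, smul_zero, add_zero, ← μr x (s • (pL x *ᵥ uR u))]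
      have e : (1 - pL x) *ᵥ (s • (pL x *ᵥ uR u)) = 0 := by
        rw [Matrix.mulVec_smul, Matrix.mulVec_mulVec, sub_mul, one_mul, (pL_facts h6 h7 x).1,
          sub_self, Matrix.zero_mulVec, smul_zero]
      rw [e]
    have hl := deriv_line (hΨt t x) (u - ep x *ᵥ u)
    have hz : fderiv ℝ (Ψ t x) 0 (u - ep x *ᵥ u) = 0 := by
      have e2 : (fun s : ℝ => Ψ t x (s • (u - ep x *ᵥ u))) =
          fun _ => H (μ x 0) (Real.smoothTransition t) := funext hc
      rw [e2] at hl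
      exact hl.unique (hasDerivAt_const _ _)
    rw [map_sub, sub_eq_zero] at hz
    exact hz.symm
  have hinj : ∀ t x u, ep x *ᵥ u = u → fderiv ℝ (Ψ t x) 0 u = 0 → u = 0 := by
    intro t x u hu hz
    by_contra hne
    have hγs : ContDiff ℝ ∞ (fun u : Fin 8 → ℝ => μ (x + uL u) (uR u)) :=
      hm.comp (contDiff_const.prodMk contDiff_id)
    have hl := deriv_line hγs u
    have hγ : ContDiff ℝ ∞ (fun s : ℝ => μ (x + uL (s • u)) (uR (s • u))) :=
      hγs.comp (contDiff_id.smul contDiff_const)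
    have hγ0 : deriv (fun s : ℝ => μ (x + uL (s • u)) (uR (s • u))) 0 ≠ 0 := by
      rw [hl.deriv, μd]
      intro h0
      apply hne
      apply ext8
      · rw [uL_zero]
        funext j
        have e1 : -Real.sin (x j) * uL u j = 0 := congrFun h0 (Sum.inl j)
        have e2 : Real.cos (x j) * uL u j = 0 := congrFun h0 (Sum.inr (Sum.inl j))
        have e3 := Real.sin_sq_add_cos_sq (x j)
        show uL u j = 0
        have e4 : uL u j = (Real.sin (x j) ^ 2 + Real.cos (x j) ^ 2) * uL u j := by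
          rw [e3, one_mul]
        rw [e4]
        linear_combination (-Real.sin (x j)) * e1 + Real.cos (x j) * e2
      · rw [uR_zero]
        have e0 : uR u = (1 - pL x) *ᵥ uR u := by
          conv_lhs => rw [← hu]
          exact uR_ep x u
        rw [e0]
        funext k
        have e1 := congrFun h0 (Sum.inr (Sum.inr k.castSucc))
        have e2 : (Sum.elim (fun j => -Real.sin (x j) * uL u j)
            (Sum.elim (fun j => Real.cos (x j) * uL u j)
              (fun k => if h : k.1 < 4 then 2 * ((1 - pL x) *ᵥ uR u) ⟨k.1, h⟩ else 0)) :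
              Idx → ℝ) (Sum.inr (Sum.inr k.castSucc)) = 2 * ((1 - pL x) *ᵥ uR u) k := by
          show (if h : (k.castSucc).1 < 4 then
            2 * ((1 - pL x) *ᵥ uR u) ⟨(k.castSucc).1, h⟩ else 0) = _
          rw [dif_pos (show (k.castSucc).1 < 4 from k.2)]
          rfl
        rw [e2] at e1
        have e3 : 2 * ((1 - pL x) *ᵥ uR u) k = 0 := e1
        show ((1 - pL x) *ᵥ uR u) k = 0
        linarith
    have him := (hHi _ (hηI t)).2 _ hγ (fun s => μM _ _) hγ0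
    apply him
    have hl2 := (deriv_line (hΨt t x) u).deriv
    rw [hz] at hl2
    rw [← hl2]
    congr 1
    funext s
    rw [hΨ]
  obtain ⟨p, ps, pp, psym, pid, ptr, pt, pC, pS, prk, puniq⟩ := h2 Ψ ep hΨs hΨp hΨV
    (ep_smPer h) (fun x => (ep_facts h6 h7 x).1) (fun x => (ep_facts h6 h7 x).2.1)
    (fun x => (ep_facts h6 h7 x).2.2) hred hinj
  have hpsm : ∀ t i j, SmPer (fun x => p t x i j) := fun t i j =>
    ⟨(ps i j).comp (contDiff_const.prodMk contDiff_id), fun x k => by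
      show p t (x + Pi.single k (2 * Real.pi)) i j = p t x i j
      rw [pp]⟩
  have h1t : ∀ x u, Ψ 1 x u = H (μ (x + uL u) (uR u)) 1 := fun x u => by
    rw [hΨ, Real.smoothTransition.one]
  have hK : ∀ x, Ψ 1 x 0 = H (kk x) 1 := fun x => by
    rw [h1t, uL_zero, uR_zero, add_zero, μ0]
  have hkM : ∀ x, kk x ∈ MM := fun x => μ0 x ▸ μM x 0
  let T : TData ((fun x => H x 1) '' MM) :=
    { K := fun x => Ψ 1 x 0
      ψ := Ψ 1
      p := p 1
      Ksm := fun i => by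
        refine ⟨?_, fun x k => ?_⟩
        · have e : ContDiff ℝ ∞ (fun x : Ang => Ψ 1 x 0) :=
            hΨs.comp (contDiff_const.prodMk (contDiff_id.prodMk contDiff_const))
          exact (contDiff_pi.1 e) i
        · show Ψ 1 (x + Pi.single k (2 * Real.pi)) 0 i = Ψ 1 x 0 i
          rw [hΨp]
      psm := hpsm 1
      ψsm := hΨt 1
      ψ0 := fun _ => rfl
      ψmem := fun x u => ⟨μ (x + uL u) (uR u), μM _ _, (h1t x u).symm⟩
      ZV := by
        rintro z ⟨y, hy, rfl⟩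
        exact hHV y hy 1 ⟨zero_le_one, le_rfl⟩
      pos := fun x => by
        show 0 < ww (Ψ 1 x 0) 4
        rw [hK]
        have e1 := hd (kk x) (hkM x) 1 ⟨zero_le_one, le_rfl⟩
        have e2 := dist_le_pi_dist (H (kk x) 1) (kk x) (Sum.inr (Sum.inr 4))
        have e3 : kk x (Sum.inr (Sum.inr 4)) = 1 := by
          show (if (4 : Fin 5) = 4 then (1 : ℝ) else 0) = 1
          exact if_pos rfl
        rw [e3, Real.dist_eq] at e2
        have e4 := (abs_lt.1 (e2.trans_lt e1)).1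
        show 0 < H (kk x) 1 (Sum.inr (Sum.inr 4))
        linarith
      sym := psym 1
      idem := pid 1
      tr := ptr 1
      tan := pt 1
      rk := prk 1
      nC := pC 1
      nS := pS 1 }
  refine ⟨T, ?_⟩
  have hPhi : Phi (mB (p 0) (hpsm 0)) = Phi (mB (p 1) (hpsm 1)) :=
    h3 (fun t => mB (p t) (hpsm t)) (fun i j => Complex.ofRealCLM.contDiff.comp (ps i j))
      (fun t => mB_mul _ (pid t))
  have h0t : ∀ x, Ψ 0 x = fun u => μ (x + uL u) (uR u) := fun x => by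
    funext u
    rw [hΨ, Real.smoothTransition.zero, hH0 _ (μM _ _)]
  have h0K : ∀ x, Ψ 0 x 0 = kk x := fun x => by
    rw [h0t]
    show μ (x + uL 0) (uR 0) = kk x
    rw [uL_zero, uR_zero, add_zero, μ0]
  have hp0 : ∀ x, q0 x = p 0 x := by
    intro x
    obtain ⟨f1, f2, f3⟩ := q0_facts h6 h7 x
    refine puniq 0 x (q0 x) f1 f2 f3 (fun u => ?_) (fun j => ?_) ?_
    · rw [h0t, μd]
      apply q0_mulVec
      have e : (fun j => (Sum.elim (fun j => -Real.sin (x j) * uL u j)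
            (Sum.elim (fun j => Real.cos (x j) * uL u j)
              (fun k => if h : k.1 < 4 then 2 * ((1 - pL x) *ᵥ uR u) ⟨k.1, h⟩ else 0)) :
              Idx → ℝ) (io j)) = (2 : ℝ) • ((1 - pL x) *ᵥ uR u) := by
        funext k
        show (if h : (k.castSucc).1 < 4 then
            2 * ((1 - pL x) *ᵥ uR u) ⟨(k.castSucc).1, h⟩ else 0) = _
        rw [dif_pos (show (k.castSucc).1 < 4 from k.2)]
        rfl
      rw [e, Matrix.mulVec_smul, Matrix.mulVec_mulVec, mul_sub, mul_one,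
        (pL_facts h6 h7 x).1, sub_self, Matrix.zero_mulVec, smul_zero]
    · rw [h0K]
      exact q0_norC x j
    · rw [h0K]
      exact q0_norS x
  show Phi (mB (p 1) (hpsm 1)) = Phi (mB pL h)
  rw [← hPhi, ← Phi_q0 h4 h6 h7 h, mB_congr (hpsm 0) (q0_smPer h) fun x => (hp0 x).symm]

end

end Pool.Agent.Helper81.AC
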