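import Pool.Agent.Helper40.AC.Stmts

/-! AC packet P38: an explicit map of nonzero area, nowhere antipodal to the Nash map. -/

open scoped ContDiff Topology Matrix
open MeasureTheory

namespace Pool.Agent.Helper81.AC

open Pool.Agent.Helper40.AC

noncomputable section

/-- the angle -/
def ps (φ : ℝ) : ℝ := Real.pi * Real.smoothTransition (1 / 2 - Real.cos φ)

/-- the sine of the angle on the first half -/
def s1 (φ : ℝ) : ℝ := Real.sin (ps φ) * Real.smoothTransition (Real.sin φ + 1 / 2)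

/-- the sine of the angle on the second half -/
def s2 (φ : ℝ) : ℝ := Real.sin (ps φ) * (1 - Real.smoothTransition (Real.sin φ + 1 / 2))

/-- the explicit map -/
def al (θ φ : ℝ) : Fin 3 → ℝ :=
  ![-(Real.sin θ * s1 φ), -(Real.cos θ * s1 φ) - s2 φ, Real.cos (ps φ)]

theorem ps_zero {φ : ℝ} (h : 1 / 2 ≤ Real.cos φ) : ps φ = 0 := by
  unfold ps
  rw [Real.smoothTransition.zero_of_nonpos (by linarith), mul_zero]

theorem ps_pi {φ : ℝ} (h : Real.cos φ ≤ -(1 / 2)) : ps φ = Real.pi := by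
  unfold ps
  rw [Real.smoothTransition.one_of_one_le (by linarith), mul_one]

theorem sin_ps_nonneg (φ : ℝ) : 0 ≤ Real.sin (ps φ) := by
  apply Real.sin_nonneg_of_nonneg_of_le_pi
  · exact mul_nonneg Real.pi_pos.le (Real.smoothTransition.nonneg _)
  · exact mul_le_of_le_one_right Real.pi_pos.le (Real.smoothTransition.le_one _)

/-- where the sine does not vanish -/
theorem sin_ps_ne {φ : ℝ} (h : Real.sin (ps φ) ≠ 0) : Real.sin φ < -(1 / 2) ∨ 1 / 2 < Real.sin φ := by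
  by_contra h2
  push Not at h2
  have h3 : Real.sin φ ^ 2 ≤ 1 / 4 := by nlinarith [h2.1, h2.2]
  have h4 := Real.sin_sq_add_cos_sq φ
  rcases le_total 0 (Real.cos φ) with h5 | h5
  · apply h
    rw [ps_zero (by nlinarith), Real.sin_zero]
  · apply h
    rw [ps_pi (by nlinarith), Real.sin_pi]

theorem s_one {φ : ℝ} (h : -(1 / 2) < Real.sin φ) : s1 φ = Real.sin (ps φ) ∧ s2 φ = 0 := by
  unfold s1 s2
  by_cases h2 : Real.sin (ps φ) = 0
  · rw [h2, zero_mul, zero_mul]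
    exact ⟨rfl, rfl⟩
  · rcases sin_ps_ne h2 with h3 | h3
    · linarith
    · rw [Real.smoothTransition.one_of_one_le (by linarith)]
      simp

theorem s_two {φ : ℝ} (h : Real.sin φ < 1 / 2) : s1 φ = 0 ∧ s2 φ = Real.sin (ps φ) := by
  unfold s1 s2
  by_cases h2 : Real.sin (ps φ) = 0
  · rw [h2, zero_mul, zero_mul]
    exact ⟨rfl, rfl⟩
  · rcases sin_ps_ne h2 with h3 | h3
    · rw [Real.smoothTransition.zero_of_nonpos (by linarith)]
      simp
    · linarith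

theorem ps_smooth : ContDiff ℝ ∞ ps :=
  contDiff_const.mul (Real.smoothTransition.contDiff.comp (contDiff_const.sub Real.contDiff_cos))

theorem s1_smooth : ContDiff ℝ ∞ s1 :=
  (Real.contDiff_sin.comp ps_smooth).mul
    (Real.smoothTransition.contDiff.comp (Real.contDiff_sin.add contDiff_const))

theorem s2_smooth : ContDiff ℝ ∞ s2 :=
  (Real.contDiff_sin.comp ps_smooth).mul
    (contDiff_const.sub
      (Real.smoothTransition.contDiff.comp (Real.contDiff_sin.add contDiff_const)))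

theorem ps_per (φ : ℝ) : ps (φ + 2 * Real.pi) = ps φ := by
  unfold ps
  rw [Real.cos_add_two_pi]

theorem s1_per (φ : ℝ) : s1 (φ + 2 * Real.pi) = s1 φ := by
  unfold s1
  rw [ps_per, Real.sin_add_two_pi]

theorem s2_per (φ : ℝ) : s2 (φ + 2 * Real.pi) = s2 φ := by
  unfold s2
  rw [ps_per, Real.sin_add_two_pi]

/-- the explicit map as a smooth periodic map -/
def alP : PerMap where
  f := al
  smooth := by
    refine contDiff_pi.2 fun i => ?_
    fin_cases i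
    · exact ((Real.contDiff_sin.comp contDiff_fst).mul (s1_smooth.comp contDiff_snd)).neg
    · exact (((Real.contDiff_cos.comp contDiff_fst).mul (s1_smooth.comp contDiff_snd)).neg).sub
        (s2_smooth.comp contDiff_snd)
    · exact Real.contDiff_cos.comp (ps_smooth.comp contDiff_snd)
  per1 := fun θ φ => by
    unfold al
    rw [Real.sin_add_two_pi, Real.cos_add_two_pi]
  per2 := fun θ φ => by
    unfold al
    rw [s1_per, s2_per, ps_per]
  unit := fun θ φ => by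
    have h1 := Real.sin_sq_add_cos_sq θ
    have h2 := Real.sin_sq_add_cos_sq (ps φ)
    rw [Fin.sum_univ_three]
    show (-(Real.sin θ * s1 φ)) ^ 2 + (-(Real.cos θ * s1 φ) - s2 φ) ^ 2 +
      Real.cos (ps φ) ^ 2 = 1
    rcases lt_or_ge (Real.sin φ) (1 / 2) with h | h
    · rw [(s_two h).1, (s_two h).2]
      linear_combination h2
    · rw [(s_one (by linarith : -(1 / 2) < Real.sin φ)).1,
        (s_one (by linarith : -(1 / 2) < Real.sin φ)).2]
      linear_combination Real.sin (ps φ) ^ 2 * h1 + h2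

theorem al_d1 (θ φ : ℝ) :
    deriv (fun t => al t φ) θ = ![-(Real.cos θ * s1 φ), Real.sin θ * s1 φ, 0] := by
  refine HasDerivAt.deriv (hasDerivAt_pi.2 fun i => ?_)
  fin_cases i
  · exact ((Real.hasDerivAt_sin θ).mul_const (s1 φ)).neg
  · have h := ((Real.hasDerivAt_cos θ).mul_const (s1 φ)).neg.sub_const (s2 φ)
    have e : -(-Real.sin θ * s1 φ) = Real.sin θ * s1 φ := by ring
    rw [e] at h
    exact h
  · exact hasDerivAt_const _ _

theorem ps_d (φ : ℝ) : HasDerivAt ps (deriv ps φ) φ :=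
  (ps_smooth.differentiable (by simp) φ).hasDerivAt

theorem al_d2 (θ : ℝ) {φ : ℝ} (h : -(1 / 2) < Real.sin φ) :
    deriv (fun t => al θ t) φ = ![-(Real.sin θ * (Real.cos (ps φ) * deriv ps φ)),
      -(Real.cos θ * (Real.cos (ps φ) * deriv ps φ)), -Real.sin (ps φ) * deriv ps φ] := by
  have e : (fun t => al θ t) =ᶠ[𝓝 φ] fun t => ![-(Real.sin θ * Real.sin (ps t)),
      -(Real.cos θ * Real.sin (ps t)), Real.cos (ps t)] := by
    filter_upwards [(isOpen_lt continuous_const Real.continuous_sin).mem_nhds h] with t ht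
    unfold al
    rw [(s_one ht).1, (s_one ht).2, sub_zero]
  rw [e.deriv_eq]
  refine HasDerivAt.deriv (hasDerivAt_pi.2 fun i => ?_)
  fin_cases i
  · exact (((ps_d φ).sin).const_mul (Real.sin θ)).neg
  · exact (((ps_d φ).sin).const_mul (Real.cos θ)).neg
  · exact (ps_d φ).cos

theorem wA_al (θ φ : ℝ) : wA al θ φ = s1 φ * deriv ps φ := by
  unfold wA
  rcases lt_or_ge (Real.sin φ) (1 / 2) with h | h
  · rw [al_d1, (s_two h).1]
    have e : (![-(Real.cos θ * 0), Real.sin θ * 0, 0] : Fin 3 → ℝ) = 0 := by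
      funext i
      fin_cases i <;> simp
    rw [e]
    simp
  · have h' : -(1 / 2) < Real.sin φ := by linarith
    rw [al_d1, al_d2 θ h', (s_one h').1, cross_apply]
    unfold al
    rw [(s_one h').1, (s_one h').2]
    simp only [dotProduct, Fin.sum_univ_three, Matrix.cons_val_zero, Matrix.cons_val_one,
      Matrix.cons_val_two, Matrix.head_cons, Matrix.tail_cons]
    have h1 := Real.sin_sq_add_cos_sq θ
    have h2 := Real.sin_sq_add_cos_sq (ps φ)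
    linear_combination Real.sin (ps φ) * deriv ps φ * (Real.sin (ps φ) ^ 2 +
      Real.cos (ps φ) ^ 2) * h1 + Real.sin (ps φ) * deriv ps φ * h2

theorem s1_int : ∫ φ in (0 : ℝ)..(2 * Real.pi), s1 φ * deriv ps φ = 2 := by
  have hd : Continuous (deriv ps) := ps_smooth.continuous_deriv (by simp)
  have hc : Continuous (fun φ => s1 φ * deriv ps φ) := s1_smooth.continuous.mul hd
  rw [← intervalIntegral.integral_add_adjacent_intervals (b := Real.pi)
    (hc.intervalIntegrable _ _) (hc.intervalIntegrable _ _)]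
  have e1 : ∫ φ in (0 : ℝ)..Real.pi, s1 φ * deriv ps φ =
      ∫ φ in (0 : ℝ)..Real.pi, Real.sin (ps φ) * deriv ps φ := by
    refine intervalIntegral.integral_congr fun φ hφ => ?_
    rw [Set.uIcc_of_le Real.pi_pos.le] at hφ
    have h1 := Real.sin_nonneg_of_mem_Icc hφ
    show s1 φ * deriv ps φ = _
    rw [(s_one (by linarith)).1]
  have e2 : ∫ φ in Real.pi..(2 * Real.pi), s1 φ * deriv ps φ =
      ∫ φ in Real.pi..(2 * Real.pi), (0 : ℝ) := by
    refine intervalIntegral.integral_congr fun φ hφ => ?_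
    rw [Set.uIcc_of_le (by linarith [Real.pi_pos])] at hφ
    have h1 : 0 ≤ Real.sin (φ - Real.pi) := by
      apply Real.sin_nonneg_of_mem_Icc
      exact ⟨by linarith [hφ.1], by linarith [hφ.2]⟩
    rw [Real.sin_sub_pi] at h1
    show s1 φ * deriv ps φ = 0
    rw [(s_two (by linarith)).1, zero_mul]
  have e3 : ∫ φ in (0 : ℝ)..Real.pi, Real.sin (ps φ) * deriv ps φ =
      -Real.cos (ps Real.pi) - -Real.cos (ps 0) := by
    refine intervalIntegral.integral_eq_sub_of_hasDerivAt (f := fun φ => -Real.cos (ps φ))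
      (fun φ _ => ?_) ?_
    · have h := (ps_d φ).cos.neg
      have e : -(-Real.sin (ps φ) * deriv ps φ) = Real.sin (ps φ) * deriv ps φ := by ring
      rw [e] at h
      exact h
    · exact ((Real.continuous_sin.comp ps_smooth.continuous).mul hd).intervalIntegrable _ _
  rw [e1, e2, e3, ps_pi (by rw [Real.cos_pi]; norm_num), ps_zero (by rw [Real.cos_zero]; norm_num)]
  simp
  norm_num

theorem DD_al : DD al = 4 * Real.pi := by
  unfold DD
  simp only [wA_al, s1_int]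
  simp
  ring

theorem fr_pos1 {c s : ℝ} (hc : -1 ≤ c) (hs : -1 ≤ s) (h : s < 0) :
    0 < (1 + s) * c + (1 - s) := by
  have := mul_nonneg (by linarith : 0 ≤ 1 + s) (by linarith : 0 ≤ c + 1)
  linarith

theorem fr_pos2 {c s : ℝ} (hc : -1 ≤ c) (hs : s ≤ 1) (h : 0 < s) :
    0 < (1 + s) + (1 - s) * c := by
  have := mul_nonneg (by linarith : 0 ≤ 1 - s) (by linarith : 0 ≤ c + 1)
  linarith

/-- not antipodal -/
theorem al_ne (h7 : S_ROOT) (θ φ : ℝ) : al θ φ + aA θ φ ≠ 0 := by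
  intro h
  obtain ⟨-, -, hN, -⟩ := h7
  obtain ⟨c₁, hc₁⟩ : ∃ c, c = Real.cos θ := ⟨_, rfl⟩
  obtain ⟨s₁, hs₁⟩ : ∃ c, c = Real.sin θ := ⟨_, rfl⟩
  obtain ⟨c₂, hc₂⟩ : ∃ c, c = Real.cos φ := ⟨_, rfl⟩
  obtain ⟨s₂, hs₂⟩ : ∃ c, c = Real.sin φ := ⟨_, rfl⟩
  have h1 : c₁ ^ 2 + s₁ ^ 2 = 1 := by rw [hc₁, hs₁]; exact Real.cos_sq_add_sin_sq θ
  have h2 : c₂ ^ 2 + s₂ ^ 2 = 1 := by rw [hc₂, hs₂]; exact Real.cos_sq_add_sin_sq φ
  obtain ⟨t, ht⟩ : ∃ t, t = rootF (gg c₁ s₁ c₂ s₂) := ⟨_, rfl⟩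
  have htg : t ^ 3 + 4 * t = gg c₁ s₁ c₂ s₂ := by rw [ht]; exact rootF_spec _
  have hNp := hN c₁ s₁ c₂ s₂ t
  obtain ⟨N, hNd⟩ : ∃ N, N = Nn c₁ s₁ c₂ s₂ t := ⟨_, rfl⟩
  rw [← hNd] at hNp
  have hb : ∀ i, bv c₁ s₁ c₂ s₂ t i = -N * al θ φ i := by
    intro i
    have h3 := congrFun h i
    have h4 : aA θ φ i = bv c₁ s₁ c₂ s₂ t i / N := by
      rw [hNd, ht, hc₁, hs₁, hc₂, hs₂]
      rfl
    rw [Pi.add_apply, h4, Pi.zero_apply] at h3
    have h5 : bv c₁ s₁ c₂ s₂ t i / N * N = bv c₁ s₁ c₂ s₂ t i := div_mul_cancel₀ _ hNp.ne'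
    rw [← h5]
    have h6 : bv c₁ s₁ c₂ s₂ t i / N = -al θ φ i := by linarith
    rw [h6]
    ring
  have hb0 := hb 0
  have hb1 := hb 1
  have hb2 := hb 2
  have e0 : bv c₁ s₁ c₂ s₂ t 0 = 2 * ((fR c₁ s₁ c₂ s₂ * t - fI c₁ s₁ c₂ s₂ * (1 - c₂)) -
        (kR c₁ s₁ c₂ s₂ t * hR c₁ s₁ c₂ s₂ + kI c₁ s₁ c₂ s₂ t * hI c₁ s₁ c₂ s₂)) := rfl
  have e1 : bv c₁ s₁ c₂ s₂ t 1 = 2 * ((-(fR c₁ s₁ c₂ s₂ * (1 - c₂)) - fI c₁ s₁ c₂ s₂ * t) -
        (kR c₁ s₁ c₂ s₂ t * hI c₁ s₁ c₂ s₂ - kI c₁ s₁ c₂ s₂ t * hR c₁ s₁ c₂ s₂)) := rfl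
  have e2 : bv c₁ s₁ c₂ s₂ t 2 = fR c₁ s₁ c₂ s₂ ^ 2 + fI c₁ s₁ c₂ s₂ ^ 2 - t ^ 2 - (1 - c₂) ^ 2 +
      kR c₁ s₁ c₂ s₂ t ^ 2 + kI c₁ s₁ c₂ s₂ t ^ 2 - hR c₁ s₁ c₂ s₂ ^ 2 - hI c₁ s₁ c₂ s₂ ^ 2 := rfl
  rw [e0] at hb0
  rw [e1] at hb1
  rw [e2] at hb2
  have a0 : al θ φ 0 = -(s₁ * s1 φ) := by rw [hs₁]; rfl
  have a1' : al θ φ 1 = -(c₁ * s1 φ) - s2 φ := by rw [hc₁]; rfl
  have a2' : al θ φ 2 = Real.cos (ps φ) := rfl
  -- the relation
  obtain ⟨fr, hfr⟩ : ∃ y, y = fR c₁ s₁ c₂ s₂ := ⟨_, rfl⟩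
  obtain ⟨fi, hfi⟩ : ∃ y, y = fI c₁ s₁ c₂ s₂ := ⟨_, rfl⟩
  obtain ⟨kr, hkr⟩ : ∃ y, y = kR c₁ s₁ c₂ s₂ t := ⟨_, rfl⟩
  obtain ⟨ki, hki⟩ : ∃ y, y = kI c₁ s₁ c₂ s₂ t := ⟨_, rfl⟩
  obtain ⟨hr, hhr⟩ : ∃ y, y = hR c₁ s₁ c₂ s₂ := ⟨_, rfl⟩
  obtain ⟨hi, hhi⟩ : ∃ y, y = hI c₁ s₁ c₂ s₂ := ⟨_, rfl⟩
  have r1 : kr * t + ki * (1 - c₂) = -(fr * hr - fi * hi) := by
    rw [hkr, hki, hfr, hfi, hhr, hhi]
    simp only [kR, kI, fR, fI, hR, hI, gg] at *
    linear_combination htg + (-(s₂ * (3 - c₂) * s₁ / 2)) * h2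
  have r2 : ki * t - kr * (1 - c₂) = -(fr * hi + fi * hr) := by
    rw [hkr, hki, hfr, hfi, hhr, hhi]
    simp only [kR, kI, fR, fI, hR, hI, gg] at *
    linear_combination (s₂ * (3 - c₂) / 4 * (1 + s₂) ^ 2) * h1 + (3 - c₂) * h2
  have hNe : N = fr ^ 2 + fi ^ 2 + t ^ 2 + (1 - c₂) ^ 2 + kr ^ 2 + ki ^ 2 + hr ^ 2 + hi ^ 2 := by
    rw [hNd, hfr, hfi, hkr, hki, hhr, hhi]
    rfl
  rw [← hfr, ← hfi, ← hkr, ← hki, ← hhr, ← hhi] at hb2
  rw [← hfr, ← hfi, ← hkr, ← hki, ← hhr, ← hhi] at hb0 hb1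
  have hc1 : -1 ≤ c₁ := by rw [hc₁]; exact Real.neg_one_le_cos θ
  have hc1' : c₁ ≤ 1 := by rw [hc₁]; exact Real.cos_le_one θ
  have hs2 : -1 ≤ s₂ := by rw [hs₂]; exact Real.neg_one_le_sin φ
  have hs2' : s₂ ≤ 1 := by rw [hs₂]; exact Real.sin_le_one φ
  have hc2' : c₂ ≤ 1 := by rw [hc₂]; exact Real.cos_le_one φ
  have i0 : 2 * (fr * t - fi * (1 - c₂)) =
      -(fr ^ 2 + fi ^ 2 + t ^ 2 + (1 - c₂) ^ 2) * al θ φ 0 := by
    have J0 : (fr ^ 2 + fi ^ 2 + t ^ 2 + (1 - c₂) ^ 2) * (kr * hr + ki * hi) +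
        (kr ^ 2 + ki ^ 2 + hr ^ 2 + hi ^ 2) * (fr * t - fi * (1 - c₂)) = 0 := by
      linear_combination ((kr * fr - ki * fi) + (t * hr + (1 - c₂) * hi)) * r1 +
        ((kr * fi + ki * fr) + (t * hi - (1 - c₂) * hr)) * r2
    apply mul_left_cancel₀ hNp.ne'
    linear_combination (fr ^ 2 + fi ^ 2 + t ^ 2 + (1 - c₂) ^ 2) * hb0 + 2 * J0 +
      2 * (fr * t - fi * (1 - c₂)) * hNe
  have i1 : 2 * (-(fr * (1 - c₂)) - fi * t) =
      -(fr ^ 2 + fi ^ 2 + t ^ 2 + (1 - c₂) ^ 2) * al θ φ 1 := by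
    have J1 : (fr ^ 2 + fi ^ 2 + t ^ 2 + (1 - c₂) ^ 2) * (kr * hi - ki * hr) +
        (kr ^ 2 + ki ^ 2 + hr ^ 2 + hi ^ 2) * (-(fr * (1 - c₂)) - fi * t) = 0 := by
      linear_combination (-(kr * fi + ki * fr) + (t * hi - (1 - c₂) * hr)) * r1 +
        ((kr * fr - ki * fi) - (t * hr + (1 - c₂) * hi)) * r2
    apply mul_left_cancel₀ hNp.ne'
    linear_combination (fr ^ 2 + fi ^ 2 + t ^ 2 + (1 - c₂) ^ 2) * hb1 + 2 * J1 +
      2 * (-(fr * (1 - c₂)) - fi * t) * hNe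
  obtain ⟨G, hG⟩ : ∃ y, y = fr ^ 2 + fi ^ 2 + t ^ 2 + (1 - c₂) ^ 2 := ⟨_, rfl⟩
  have hG0 : 0 ≤ G := by rw [hG]; positivity
  rw [← hG, a0] at i0
  rw [← hG, a1'] at i1
  have hS := sin_ps_nonneg φ
  have hfr' : fr = (1 + s₂) * c₁ + (1 - s₂) := hfr
  have hfi' : fi = (1 + s₂) * s₁ := hfi
  rcases lt_trichotomy s₂ 0 with hneg | hzero | hpos
  · have hr0 : 0 < 1 - c₂ := by
      rcases hc2'.lt_or_eq with h | h
      · linarith
      · rw [h] at h2
        have : s₂ ^ 2 = 0 := by linarith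
        have := pow_eq_zero_iff (two_ne_zero) |>.1 this
        linarith
    obtain ⟨q1, q2⟩ := s_two (φ := φ) (by rw [← hs₂]; linarith)
    rw [q1] at i0
    rw [q1, q2] at i1
    have hf0 : 0 < fr := by
      rw [hfr']
      exact fr_pos1 hc1 hs2 hneg
    have key : -2 * (1 - c₂) * (fr ^ 2 + fi ^ 2) = fr * (G * Real.sin (ps φ)) := by
      linear_combination fr * i1 + fi * i0
    have p1 : 0 ≤ fr * (G * Real.sin (ps φ)) := mul_nonneg hf0.le (mul_nonneg hG0 hS)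
    have p2 : 0 < (1 - c₂) * (fr ^ 2 + fi ^ 2) := mul_pos hr0 (by positivity)
    linarith
  · have hc22 : c₂ ^ 2 = 1 := by rw [hzero] at h2; linarith
    have ht0 : t = 0 := by
      have e : t * (t ^ 2 + 4) = 0 := by
        have e1 : gg c₁ s₁ c₂ s₂ = 0 := by
          unfold gg
          rw [hzero]
          ring
        rw [e1] at htg
        linarith
      rcases mul_eq_zero.1 e with h | h
      · exact h
      · linarith [sq_nonneg t]
    have hr0 : hr = 0 := by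
      rw [hhr]
      unfold hR
      rw [hzero]
      ring
    have hi0 : hi = 0 := by
      rw [hhi]
      unfold hI
      rw [hzero]
      ring
    rw [ht0, hr0, hi0, a2'] at hb2
    have hcc : (c₂ - 1) * (c₂ + 1) = 0 := by linarith
    rcases mul_eq_zero.1 hcc with h | h
    · have hc : c₂ = 1 := by linarith
      rw [ps_zero (by rw [← hc₂, hc]; norm_num), Real.cos_zero, hc] at hb2
      linarith [sq_nonneg fr, sq_nonneg fi, sq_nonneg kr, sq_nonneg ki]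
    · have hc : c₂ = -1 := by linarith
      have hk1 : kr = 0 := by
        rw [hkr]
        unfold kR
        rw [ht0, hc]
        norm_num
      have hk2 : ki = 0 := by
        rw [hki]
        unfold kI
        rw [ht0]
        ring
      rw [ps_pi (by rw [← hc₂, hc]; norm_num), Real.cos_pi, hc, hk1, hk2, hfr', hfi', hzero] at hb2
      linarith
  · have hr0 : 0 < 1 - c₂ := by
      rcases hc2'.lt_or_eq with h | h
      · linarith
      · rw [h] at h2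
        have : s₂ ^ 2 = 0 := by linarith
        have := pow_eq_zero_iff (two_ne_zero) |>.1 this
        linarith
    obtain ⟨q1, q2⟩ := s_one (φ := φ) (by rw [← hs₂]; linarith)
    rw [q1] at i0
    rw [q1, q2] at i1
    rw [hfr', hfi'] at i0 i1
    have hf0 : 0 < (1 + s₂) + (1 - s₂) * c₁ := fr_pos2 hc1 hs2' hpos
    have key1 : 2 * (t * ((1 - s₂) * s₁) - (1 - c₂) * ((1 + s₂) + (1 - s₂) * c₁)) =
        G * Real.sin (ps φ) := by
      linear_combination s₁ * i0 + c₁ * i1 +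
        (2 * (1 - c₂) * (1 + s₂) + G * Real.sin (ps φ)) * h1
    have key2 : 2 * (t * ((1 + s₂) + (1 - s₂) * c₁) + (1 - c₂) * ((1 - s₂) * s₁)) = 0 := by
      linear_combination c₁ * i0 - s₁ * i1 - 2 * t * (1 + s₂) * h1
    have key : -2 * (1 - c₂) * (((1 + s₂) + (1 - s₂) * c₁) ^ 2 + ((1 - s₂) * s₁) ^ 2) =
        ((1 + s₂) + (1 - s₂) * c₁) * (G * Real.sin (ps φ)) := by
      linear_combination ((1 + s₂) + (1 - s₂) * c₁) * key1 - ((1 - s₂) * s₁) * key2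
    have p1 : 0 ≤ ((1 + s₂) + (1 - s₂) * c₁) * (G * Real.sin (ps φ)) :=
      mul_nonneg hf0.le (mul_nonneg hG0 hS)
    have p2 : 0 < (1 - c₂) * (((1 + s₂) + (1 - s₂) * c₁) ^ 2 + ((1 - s₂) * s₁) ^ 2) :=
      mul_pos hr0 (by positivity)
    linarith

theorem a0_ok (h : S_ROOT) : S_A0 :=
  ⟨alP, by
    show DD al ≠ 0
    rw [DD_al]
    exact mul_ne_zero (by norm_num) Real.pi_ne_zero, fun θ φ => al_ne h θ φ⟩

end

end Pool.Agent.Helper81.AC
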